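import Pool.Agent.H3.Mac2

open Filter Topology Metric Set

namespace Pool.Agent.Results.MP_b969c4_an.AllOpen

open Pool.Agent.H3.Mac

/-- The family `{g n : n ∈ ℕ}` is normal on `N`: every sequence in the family has a subsequence
converging uniformly on compact subsets of `N` to an analytic function or to `∞`. -/
def IsNormalOn (g : ℕ → ℂ → ℂ) (N : Set ℂ) : Prop :=
  ∀ σ : ℕ → ℕ, ∃ φ : ℕ → ℕ, StrictMono φ ∧
    ((∃ h : ℂ → ℂ, DifferentiableOn ℂ h N ∧ ∀ K ⊆ N, IsCompact K →
        TendstoUniformlyOn (fun k => g (σ (φ k))) h Filter.atTop K) ∨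
      ∀ K ⊆ N, IsCompact K → ∀ C : ℝ, ∀ᶠ k in Filter.atTop, ∀ z ∈ K, C ≤ ‖g (σ (φ k)) z‖)

/-- The set `M(f)` of MacLane points of `f` in `G`. -/
def MacLane (G : Set ℂ) (f : ℂ → ℂ) : Set ℂ :=
  {z | z ∈ G ∧ ∃ N : Set ℂ, IsOpen N ∧ z ∈ N ∧ N ⊆ G ∧ IsNormalOn (fun n => iteratedDeriv n f) N}

theorem lower {w z q : ℂ} {k : ℕ} {η : ℝ} (h : ‖w - c k * (z - q)‖ ≤ t k) (hη : η ≤ ‖z - q‖) :
    t k * ((k + 1) * η - 1) ≤ ‖w‖ := by
  have h1 := norm_sub_norm_le ((c k : ℂ) * (z - q)) w
  have h0 : 0 ≤ c k := zero_le_one.trans ((one_le_t k).trans (t_le_c k))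
  rw [norm_sub_rev, norm_mul, Complex.norm_real, Real.norm_of_nonneg h0] at h1
  have h2 : c k * η ≤ c k * ‖z - q‖ := by gcongr
  have h3 : t k * ((k + 1) * η - 1) = c k * η - t k := by unfold c; ring
  linarith

theorem seq_p (G U : Set ℂ) (hU : IsOpen U) : ∃ p : ℕ → ℂ,
    (∀ K ⊆ U, IsCompact K → ∃ η > 0, ∀ᶠ k in atTop, ∀ z ∈ K, η ≤ ‖z - p k‖) ∧
    ∀ z ∈ G \ U, ∀ ε > 0, ∀ j, ∃ k, j ≤ k ∧ dist (p k) z < ε := by
  rcases (G \ U).eq_empty_or_nonempty with h | h
  · refine ⟨fun k => k, fun K _ hK => ⟨1, one_pos, ?_⟩, by simp [h]⟩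
    obtain ⟨R, hR⟩ := hK.isBounded.exists_norm_le
    filter_upwards [tendsto_natCast_atTop_atTop.eventually_ge_atTop (R + 1)] with k hk z hz
    have := norm_sub_norm_le (k : ℂ) z
    rw [norm_sub_rev, Complex.norm_natCast] at this
    linarith [hR z hz]
  · have := h.to_subtype
    refine ⟨fun k => (TopologicalSpace.denseSeq ↥(G \ U) (Nat.unpair k).1 : ℂ), fun K hKU hK => ?_, ?_⟩
    · obtain ⟨η, hη, h1⟩ := hK.exists_thickening_subset_open hU hKU
      refine ⟨η, hη, Eventually.of_forall fun k z hz => ?_⟩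
      by_contra hlt
      refine (TopologicalSpace.denseSeq ↥(G \ U) (Nat.unpair k).1).2.2 (h1 ?_)
      exact mem_thickening_iff.2 ⟨z, hz, by rw [dist_comm, dist_eq_norm]; exact not_le.1 hlt⟩
    · intro z hz ε hε j
      obtain ⟨i, hi⟩ := (TopologicalSpace.denseRange_denseSeq ↥(G \ U)).exists_dist_lt ⟨z, hz⟩ hε
      refine ⟨Nat.pair i j, Nat.right_le_pair _ _, ?_⟩
      simp only [Nat.unpair_pair]
      rw [dist_comm]; exact hi

theorem q1 (G U : Set ℂ) (hU : IsOpen U) (hUG : U ⊆ G) :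
    ∃ f : ℂ → ℂ, Differentiable ℂ f ∧ MacLane G f = U := by
  obtain ⟨p, hp1, hp2⟩ := seq_p G U hU
  obtain ⟨f, hf, κ, hκ, h1, h2⟩ := core p
  refine ⟨f, by simpa using hf 0, Subset.antisymm ?_ fun z hz => ⟨hUG hz, U, hU, hz, hUG, ?_⟩⟩
  · rintro z0 ⟨hz0, N, hN, hzN, -, hnorm⟩
    by_contra hzU
    obtain ⟨r, hr, hrN⟩ := nhds_basis_closedBall.mem_iff.1 (hN.mem_nhds hzN)
    choose k hk1 hk2 using hp2 z0 ⟨hz0, hzU⟩ (r / 2) (by positivity)
    choose n hn using h2
    obtain ⟨φ, hφ, hcase⟩ := hnorm fun j => n (k j)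
    have hkφ : Tendsto (fun j => ((k (φ j) : ℕ) : ℝ)) atTop atTop :=
      tendsto_natCast_atTop_atTop.comp (tendsto_atTop_mono (fun j => (hφ.id_le j).trans (hk1 _))
        tendsto_id)
    have hball : ∀ z ∈ closedBall z0 r, ‖z‖ ≤ ‖z0‖ + r := fun z hz => by
      have := norm_sub_norm_le z z0
      rw [mem_closedBall, dist_eq_norm] at hz
      linarith
    have hsph : ∀ j, ‖z0‖ + r ≤ k j → ∀ z ∈ sphere z0 r,
        t (k j) * ((k j + 1) * (r / 2) - 1) ≤ ‖iteratedDeriv (n (k j)) f z‖ := by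
      intro j hj z hz
      refine lower (hn (k j) z ((hball z (sphere_subset_closedBall hz)).trans hj)) ?_
      have a1 := dist_triangle z (p (k j)) z0
      rw [mem_sphere.1 hz, dist_eq_norm] at a1
      linarith [hk2 j]
    have hbig : ∀ C : ℝ, ∀ᶠ j in atTop, ‖z0‖ + r ≤ k (φ j) ∧ C < (k (φ j) + 1) * (r / 2) - 1 := by
      intro C
      filter_upwards [hkφ.eventually_ge_atTop (‖z0‖ + r),
        hkφ.eventually_ge_atTop ((C + 1) / (r / 2))] with j a1 a2
      rw [div_le_iff₀ (by positivity)] at a2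
      exact ⟨a1, by nlinarith⟩
    rcases hcase with ⟨h, -, hlim⟩ | hinf
    · have hw : z0 + r ∈ sphere z0 r := by simp [hr.le]
      have a1 := (hlim {z0 + r} (by simpa using hrN (sphere_subset_closedBall hw))
        isCompact_singleton).tendsto_at (mem_singleton _)
      obtain ⟨j, ⟨b1, b2⟩, b3⟩ := ((hbig (‖h (z0 + r)‖ + 1)).and
        (a1.norm.eventually_lt_const (lt_add_one _))).exists
      have b4 := hsph _ b1 _ hw
      have b5 := one_le_t (k (φ j))
      nlinarith [norm_nonneg (h (z0 + r))]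
    · obtain ⟨j, ⟨b1, b2⟩, b3⟩ := ((hbig 1).and
        (hinf _ hrN (isCompact_closedBall z0 r) 1)).exists
      set F := iteratedDeriv (n (k (φ j))) f with hF
      have b5 := one_le_t (k (φ j))
      have hne : ∀ z ∈ closedBall z0 r, F z ≠ 0 := fun z hz h0 => by
        have : 1 ≤ ‖F z‖ := b3 z hz
        simp only [h0, norm_zero] at this
        linarith
      have hd : DiffContOnCl ℂ (fun z => (F z)⁻¹) (ball z0 r) := by
        apply DifferentiableOn.diffContOnCl
        rw [closure_ball z0 hr.ne']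
        exact (hf _).differentiableOn.inv hne
      have hpk : p (k (φ j)) ∈ closedBall z0 r := mem_closedBall.2 (by linarith [hk2 (φ j)])
      have hpos : 0 < t (k (φ j)) * ((k (φ j) + 1) * (r / 2) - 1) := by nlinarith
      have b6 := Complex.norm_le_of_forall_mem_frontier_norm_le isBounded_ball hd
        (C := (t (k (φ j)) * ((k (φ j) + 1) * (r / 2) - 1))⁻¹) (fun z hz => by
          rw [frontier_ball z0 hr.ne'] at hz
          rw [norm_inv]
          exact inv_anti₀ hpos (hsph _ b1 z hz)) (z := p (k (φ j)))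
        (by rw [closure_ball z0 hr.ne']; exact hpk)
      rw [norm_inv, inv_le_inv₀ (norm_pos_iff.2 (hne _ hpk)) hpos] at b6
      have b7 := hn (k (φ j)) _ ((hball _ hpk).trans b1)
      simp only [sub_self, mul_zero, sub_zero] at b7
      nlinarith
  · intro σ
    by_cases hσ : Tendsto σ atTop atTop
    · refine ⟨id, strictMono_id, Or.inr fun K hKU hK C => ?_⟩
      obtain ⟨η, hη, h3⟩ := hp1 K hKU hK
      obtain ⟨R, hR⟩ := hK.isBounded.exists_norm_le
      have h4 : Tendsto (fun j => κ (σ j)) atTop atTop := hκ.comp hσ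
      have h5 : Tendsto (fun j => ((κ (σ j) : ℕ) : ℝ)) atTop atTop :=
        tendsto_natCast_atTop_atTop.comp h4
      filter_upwards [h4.eventually h3, h5.eventually_ge_atTop R, h5.eventually_ge_atTop C,
        h5.eventually_ge_atTop ((|C| + 1) / η)] with j a1 a2 a3 a4 z hz
      rcases h1 (σ j) with h | h
      · exact a3.trans (h z ((hR z hz).trans a2))
      · have b1 := lower (h z ((hR z hz).trans a2)) (a1 z hz)
        have b2 := one_le_t (κ (σ j))
        rw [div_le_iff₀ hη] at a4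
        have b3 : |C| ≤ (κ (σ j) + 1) * η - 1 := by nlinarith
        change C ≤ ‖iteratedDeriv (σ j) f z‖
        nlinarith [le_abs_self C, abs_nonneg C]
    · have : ∃ m, ∃ᶠ j in atTop, σ j = m := by
        by_contra hcon
        apply hσ
        simp only [not_exists, not_frequently] at hcon
        refine tendsto_atTop.2 fun m => ?_
        filter_upwards [(eventually_all_finset (Finset.range m)).2 fun i _ => hcon i] with j hj
        by_contra hlt
        exact hj (σ j) (Finset.mem_range.2 (not_le.1 hlt)) rfl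
      obtain ⟨m, hm⟩ := this
      obtain ⟨φ, hφ, h3⟩ := extraction_of_frequently_atTop hm
      refine ⟨φ, hφ, Or.inl ⟨iteratedDeriv m f, (hf m).differentiableOn, fun K _ _ => ?_⟩⟩
      simp only [h3]
      exact Metric.tendstoUniformlyOn_iff.2 fun ε hε => Eventually.of_forall fun _ z _ => by simpa

theorem sc_univ : IsSimplyConnected (univ : Set ℂ) := by
  have := (convex_univ (𝕜 := ℝ) (E := ℂ)).contractibleSpace univ_nonempty
  exact SimplyConnectedSpace.ofContractible _

theorem not_sc : ¬ IsSimplyConnected ({0}ᶜ : Set ℂ) := by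
  intro h
  obtain ⟨g, hg, he⟩ := Complex.exists_continuousOn_eqOn_exp_comp h isOpen_compl_singleton
    (g := id) continuousOn_id (by simp)
  have hm : ∀ s : ℝ, Complex.exp (s * Complex.I) ∈ ({0}ᶜ : Set ℂ) := fun s => Complex.exp_ne_zero _
  let u : ℝ → ℂ := fun s => g (Complex.exp (s * Complex.I)) - s * Complex.I
  have hu : Continuous u := (hg.comp_continuous (by fun_prop) hm).sub (by fun_prop)
  have h1 : ∀ s, ∃ m : ℤ, u s = m * (2 * Real.pi * Complex.I) := fun s => by
    rw [← Complex.exp_eq_one_iff]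
    have := he (hm s)
    simp only [Function.comp, id] at this
    simp only [u, Complex.exp_sub, this]
    exact div_self (Complex.exp_ne_zero _)
  have hv : Continuous fun s => (u s).im := Complex.continuous_im.comp hu
  have h2 : (u (2 * Real.pi)).im = (u 0).im - 2 * Real.pi := by
    simp [u, Complex.exp_two_pi_mul_I]
  obtain ⟨s, -, hs⟩ := intermediate_value_Icc' (a := 0) (b := 2 * Real.pi) (by positivity)
    hv.continuousOn (show (u 0).im - Real.pi ∈ Icc _ _ from
      ⟨by linarith [Real.pi_pos], by linarith [Real.pi_pos]⟩)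
  obtain ⟨m, hm1⟩ := h1 s
  obtain ⟨m', hm2⟩ := h1 0
  simp only [hm1, hm2] at hs
  simp at hs
  have h3 : ((2 * m - 2 * m' + 1 : ℤ) : ℝ) * Real.pi = 0 := by push_cast; linarith
  have h4 : (2 * m - 2 * m' + 1 : ℤ) = 0 := by
    exact_mod_cast (mul_eq_zero.1 h3).resolve_right Real.pi_ne_zero
  omega

theorem result :
    (∀ G U : Set ℂ, IsOpen U → U ⊆ G → ∃ f : ℂ → ℂ, Differentiable ℂ f ∧ MacLane G f = U) ∧
    (∃ (G : Set ℂ) (f : ℂ → ℂ), IsOpen G ∧ IsConnected G ∧ IsSimplyConnected G ∧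
      DifferentiableOn ℂ f G ∧ ¬ IsPreconnected (MacLane G f)) ∧
    (∃ (G : Set ℂ) (f : ℂ → ℂ), IsOpen G ∧ IsConnected G ∧ IsSimplyConnected G ∧
      DifferentiableOn ℂ f G ∧ IsConnected (MacLane G f) ∧ ¬ IsSimplyConnected (MacLane G f)) := by
  refine ⟨q1, ?_, ?_⟩
  · obtain ⟨f, hf, h⟩ := q1 univ {z | z.re ≠ 0}
      (isOpen_ne_fun Complex.continuous_re continuous_const) (subset_univ _)
    refine ⟨univ, f, isOpen_univ, isConnected_univ, sc_univ, hf.differentiableOn, ?_⟩
    rw [h]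
    intro hc
    obtain ⟨z, hz, h0⟩ := hc.intermediate_value (a := -1) (b := 1) (by simp) (by simp)
      Complex.continuous_re.continuousOn (show (0 : ℝ) ∈ Icc _ _ by simp)
    exact hz h0
  · obtain ⟨f, hf, h⟩ := q1 univ {0}ᶜ isOpen_compl_singleton (subset_univ _)
    refine ⟨univ, f, isOpen_univ, isConnected_univ, sc_univ, hf.differentiableOn, ?_⟩
    rw [h]
    exact ⟨isConnected_compl_singleton_of_one_lt_rank (by simp) 0, not_sc⟩

end Pool.Agent.Results.MP_b969c4_an.AllOpen
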